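import Pool.Agent.H92.Frog.Sem

/-!
# From the finite certificate to the certificate
-/

set_option autoImplicit false

open scoped BigOperators

namespace Pool.Agent.H27.Frog

open Pool.Agent.H92.Frog Pool.Agent.H92.Frog.K

/-! ### Small tables -/

theorem jf_le (i : Fin 22) : jf i ≤ 5 := by
  revert i; decide +kernel

theorem jf_pred (i : Fin 22) : 2 ≤ jf i → jf (i - 1) + 1 = jf i ∧ ∀ s, gvf (i - 1) s = gvf i s := by
  revert i; decide +kernel

theorem le_cases (a b : Fin 11) : leB (a : ℕ) (b : ℕ) = true →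
    a = 0 ∨ (b ≠ 0 ∧ ∀ x : Fin 4, leB (chf a x : ℕ) (chf b x : ℕ) = true) := by
  revert a b; decide +kernel

theorem ch0 (x : Fin 4) : chf 0 x = 0 := by
  revert x; decide +kernel

theorem ch1 (x : Fin 4) : chf 1 x = 0 := by
  revert x; decide +kernel

theorem pf_ge (s : Fin 11) : 16 ≤ pf s := by
  revert s; decide +kernel

/-! ### Permutations -/

theorem keyf_perm (σ : Fin 4 → Fin 11) (π : Equiv.Perm (Fin 4)) : keyf (σ ∘ π) = keyf σ :=
  Equiv.sum_comp π (fun x => 5 ^ (σ x : ℕ))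

theorem prod_perm (σ : Fin 4 → Fin 11) (π : Equiv.Perm (Fin 4)) :
    (∏ x, pf ((σ ∘ π) x)) = ∏ x, pf (σ x) :=
  Equiv.prod_comp π (fun x => pf (σ x))

/-! ### The shift -/

/-- constant coefficient of the shift -/
noncomputable def sc0 (i : Fin 22) : ℕ := if jf i = 0 then 131072 else if jf i = 1 then 1048576 else 0

/-- linear coefficients of the shift -/
noncomputable def sc (i j : Fin 22) : ℕ :=
  if jf i = 0 then (if j = i then 3 else 0) else if jf i = 1 then 0 else (if j = i - 1 then 1 else 0)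

theorem sc_eq (i : Fin 22) (u : Fin 22 → ℕ) : sc0 i + ∑ j, sc i j * u j = shf u i := by
  unfold sc0 sc shf
  by_cases h0 : jf i = 0
  · simp only [h0, if_true]
    have : ∑ j, (if j = i then 3 else 0) * u j = 3 * u i := by
      rw [Finset.sum_eq_single i]
      · simp
      · intro b _ hb; simp [hb]
      · intro h; exact absurd (Finset.mem_univ _) h
    rw [this]; omega
  · by_cases h1 : jf i = 1
    · simp [h1]
    · simp only [h0, h1, if_false]
      have : ∑ j, (if j = i - 1 then 1 else 0) * u j = u (i - 1) := by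
        rw [Finset.sum_eq_single (i - 1)]
        · simp
        · intro b _ hb; simp [hb]
        · intro h; exact absurd (Finset.mem_univ _) h
      rw [this]; omega

theorem hf_succ (i : Fin 22) (k : ℕ) (s : Fin 11) : hf i (k + 1) s = shf (fun j => hf j k s) i := by
  unfold shf
  by_cases h0 : jf i = 0
  · simp only [h0, if_true]
    unfold hf
    simp only [h0, if_true]
    have h3 : 1 ≤ 3 ^ k := Nat.one_le_pow _ _ (by norm_num)
    have : 65536 ≤ 3 ^ k * (65536 + gvf i s) := by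
      calc 65536 ≤ 1 * (65536 + gvf i s) := by omega
        _ ≤ 3 ^ k * (65536 + gvf i s) := Nat.mul_le_mul_right _ h3
    have e : 3 ^ (k + 1) * (65536 + gvf i s) = 3 * (3 ^ k * (65536 + gvf i s)) := by ring
    rw [e]; omega
  · by_cases h1 : jf i = 1
    · simp only [h1]
      unfold hf
      simp [h1]
    · simp only [h0, h1, if_false]
      have h2 : 2 ≤ jf i := by omega
      obtain ⟨hp, hg⟩ := jf_pred i h2
      unfold hf
      have hp0 : jf (i - 1) ≠ 0 := by omega
      simp only [h0, hp0, if_false, hg]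
      have e1 : (jf i ≤ k + 1) ↔ (jf (i - 1) ≤ k) := by omega
      have e2 : (k + 1 + 1 = jf i) ↔ (k + 1 = jf (i - 1)) := by omega
      simp only [e1, e2]

/-! ### Extension to large arguments -/

/-- `(3^m - 1) / 2` -/
def T : ℕ → ℕ
  | 0 => 0
  | m + 1 => 3 * T m + 1

theorem T_two (m : ℕ) : 2 ^ m ≤ 1 + T m := by
  induction m with
  | zero => simp [T]
  | succ m ih => simp only [T, pow_succ]; omega

theorem T_ge (m : ℕ) : m ≤ T m := by
  induction m with
  | zero => simp [T]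
  | succ m ih => simp only [T]; omega

theorem T_three (m : ℕ) : 3 ^ m = 2 * T m + 1 := by
  induction m with
  | zero => simp [T]
  | succ m ih => simp only [T, pow_succ, ih]; ring

theorem aux1 (c B t : ℕ) : (2 * t + 1) * (c + B) - c = 2 * t * (c + B) + B := by
  have : (2 * t + 1) * (c + B) = 2 * t * (c + B) + B + c := by ring
  omega

theorem aux2 (c B : ℕ) : 3 * (c + B) - c = 2 * (c + B) + B := by omega

theorem aux3 (c B : ℕ) : c + B - c = B := by omega

theorem hf_ext (j : Fin 22) (m : ℕ) (s : Fin 11) :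
    hf j (9 + m) s + T m * hf j 9 s = hf j 9 s + T m * hf j 10 s := by
  unfold hf
  by_cases h0 : jf j = 0
  · simp only [h0, if_true]
    obtain ⟨B, hB⟩ : ∃ B, 3 ^ 9 * (65536 + gvf j s) = 65536 + B :=
      ⟨3 ^ 9 * (65536 + gvf j s) - 65536, by omega⟩
    have h9 : 3 ^ (9 + m) * (65536 + gvf j s) = (2 * T m + 1) * (65536 + B) := by
      rw [← hB, pow_add, T_three m]; ring
    have h10 : 3 ^ 10 * (65536 + gvf j s) = 3 * (65536 + B) := by
      rw [← hB]; ring
    rw [h9, h10, hB]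
    rw [aux1, aux2, aux3]; ring
  · have h5 := jf_le j
    simp only [h0, if_false]
    have a1 : jf j ≤ 9 + m := by omega
    have a2 : jf j ≤ 9 := by omega
    have a3 : jf j ≤ 10 := by omega
    have b1 : ¬ (9 + m + 1 = jf j) := by omega
    have b2 : ¬ (9 + 1 = jf j) := by omega
    have b3 : ¬ (10 + 1 = jf j) := by omega
    simp only [a1, a2, a3, b1, b2, b3, if_true, if_false]

theorem sum_ext (g : Fin 22 → ℕ) (m : ℕ) (s : Fin 11) :
    (∑ j, g j * hf j (9 + m) s) + T m * (∑ j, g j * hf j 9 s) =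
      (∑ j, g j * hf j 9 s) + T m * (∑ j, g j * hf j 10 s) := by
  rw [Finset.mul_sum, Finset.mul_sum, ← Finset.sum_add_distrib, ← Finset.sum_add_distrib]
  refine Finset.sum_congr rfl fun j _ => ?_
  have := hf_ext j m s
  calc g j * hf j (9 + m) s + T m * (g j * hf j 9 s)
      = g j * (hf j (9 + m) s + T m * hf j 9 s) := by ring
    _ = g j * (hf j 9 s + T m * hf j 10 s) := by rw [this]
    _ = g j * hf j 9 s + T m * (g j * hf j 10 s) := by ring

theorem ext (s : Fin 11) (g0 : ℕ) (g : Fin 22 → ℕ) (G : ℕ → ℕ)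
    (h1 : ∀ k < 10, G k ≤ g0 + ∑ j, g j * hf j k s)
    (h2 : G 10 + ∑ j, g j * hf j 9 s ≤ G 9 + ∑ j, g j * hf j 10 s)
    (h3 : ∀ m, G (9 + m) + T m * G 9 ≤ G 9 + T m * G 10) (k : ℕ) :
    G k ≤ g0 + ∑ j, g j * hf j k s := by
  by_cases hk : k < 10
  · exact h1 k hk
  · obtain ⟨m, rfl⟩ : ∃ m, k = 9 + m := ⟨k - 9, by omega⟩
    have a := h3 m
    have b := sum_ext g m s
    have c := Nat.mul_le_mul_left (T m) h2
    have d := h1 9 (by norm_num)
    rw [Nat.mul_add, Nat.mul_add] at c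
    omega

/-! ### The extended table -/

/-- the extended table -/
noncomputable def UU (D : FinDat) (i : Fin 22) (σ : Fin 4 → Fin 11) (n : ℕ) : ℕ :=
  if n ≤ 8 then D.U (keyf σ) n i
  else if jf i = 0 then 32 * (∏ x, pf (σ x)) * 2 ^ (n - 8) else 1048576

theorem UU_le8 (D : FinDat) (i : Fin 22) (σ : Fin 4 → Fin 11) (n : ℕ) (h : n ≤ 8) :
    UU D i σ n = D.U (keyf σ) n i := by
  unfold UU; rw [if_pos h]

theorem UU_low (D : FinDat) (i : Fin 22) (σ : Fin 4 → Fin 11) (n : ℕ) (h : n ≤ 17) :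
    UU D i σ n = D.U (keyf σ) n i := by
  by_cases h8 : n ≤ 8
  · exact UU_le8 D i σ n h8
  · unfold UU; rw [if_neg h8, D.tail σ i n (by omega) h]

theorem UU_tail (D : FinDat) (i : Fin 22) (σ : Fin 4 → Fin 11) (n : ℕ) (h : 9 ≤ n) :
    UU D i σ n = if jf i = 0 then 32 * (∏ x, pf (σ x)) * 2 ^ (n - 8) else 1048576 := by
  unfold UU; rw [if_neg (by omega)]

theorem UU_cap (D : FinDat) (i : Fin 22) (σ : Fin 4 → Fin 11) (n : ℕ) (h : 8 ≤ n) :
    UU D i σ n ≤ if jf i = 0 then 32 * (∏ x, pf (σ x)) * 2 ^ (n - 8) else 1048576 := by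
  by_cases h8 : n = 8
  · subst h8
    rw [UU_le8 D i σ 8 le_rfl]
    have := D.cap σ i
    by_cases h0 : jf i = 0
    · simpa [h0] using this
    · simpa [h0] using this
  · exact le_of_eq (UU_tail D i σ n (by omega))

theorem UU_perm (D : FinDat) (i : Fin 22) (σ : Fin 4 → Fin 11) (n : ℕ) (π : Equiv.Perm (Fin 4)) :
    UU D i (σ ∘ π) n = UU D i σ n := by
  unfold UU; rw [keyf_perm, prod_perm]

theorem start_eq (s : Fin 11) : start (N := 9) s = st s := by
  unfold start st; rfl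

theorem st_le (s : Fin 11) : st s ≤ 2 := by
  unfold st; split <;> omega

theorem UU_start (D : FinDat) (i : Fin 22) (s : Fin 11) :
    UU D i (chf s) (start (N := 9) s) = D.U (keyf (chf s)) (st s) i := by
  rw [start_eq, UU_le8 D i (chf s) (st s) (le_trans (st_le s) (by norm_num))]

/-! ### Keys -/

theorem k0 (A B C E : ℕ) : A + B + C + E - A = B + C + E := by omega
theorem k1 (A B C E : ℕ) : A + B + C + E - B = A + C + E := by omega
theorem k2 (A B C E : ℕ) : A + B + C + E - C = A + B + E := by omega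
theorem k3 (A B C E : ℕ) : A + B + C + E - E = A + B + C := by omega

theorem key_ctx (σ : Fin 4 → Fin 11) (x : Fin 4) : ∃ a₁ a₂ a₃ : Fin 11,
    keyf σ - 5 ^ (σ x : ℕ) = 5 ^ (a₁ : ℕ) + 5 ^ (a₂ : ℕ) + 5 ^ (a₃ : ℕ) ∧
    ∀ s : Fin 11, keyf (Function.update σ x s) =
      5 ^ (a₁ : ℕ) + 5 ^ (a₂ : ℕ) + 5 ^ (a₃ : ℕ) + 5 ^ (s : ℕ) := by
  have key : keyf σ = 5 ^ (σ 0 : ℕ) + 5 ^ (σ 1 : ℕ) + 5 ^ (σ 2 : ℕ) + 5 ^ (σ 3 : ℕ) := by
    simp only [keyf, Fin.sum_univ_four]
  fin_cases x
  · refine ⟨σ 1, σ 2, σ 3, ?_, fun s => ?_⟩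
    · show keyf σ - 5 ^ (σ 0 : ℕ) = _
      rw [key, k0]
    · simp [keyf, Fin.sum_univ_four]
      ring
  · refine ⟨σ 0, σ 2, σ 3, ?_, fun s => ?_⟩
    · show keyf σ - 5 ^ (σ 1 : ℕ) = _
      rw [key, k1]
    · simp [keyf, Fin.sum_univ_four]
      ring
  · refine ⟨σ 0, σ 1, σ 3, ?_, fun s => ?_⟩
    · show keyf σ - 5 ^ (σ 2 : ℕ) = _
      rw [key, k2]
    · simp [keyf, Fin.sum_univ_four]
      ring
  · refine ⟨σ 0, σ 1, σ 2, ?_, fun s => ?_⟩
    · show keyf σ - 5 ^ (σ 3 : ℕ) = _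
      rw [key, k3]
    · simp [keyf, Fin.sum_univ_four]

/-! ### The steps -/

theorem shift_val (m : ℕ) (i : Fin 22) (u : Fin 22 → ℕ) :
    m * sc0 i + ∑ j, (m * sc i j) * u j = m * shf u i := by
  have : ∑ j, (m * sc i j) * u j = m * ∑ j, sc i j * u j := by
    rw [Finset.mul_sum]
    exact Finset.sum_congr rfl fun j _ => Nat.mul_assoc _ _ _
  rw [this, ← Nat.mul_add, sc_eq]

theorem shift_ineq (m : ℕ) (i : Fin 22) (k : ℕ) (s : Fin 11) :
    m * hf i (k + 1) s ≤ m * sc0 i + ∑ j, (m * sc i j) * hf j k s := by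
  rw [hf_succ]
  exact (shift_val m i _).ge

theorem low_ctx (D : FinDat) (i : Fin 22) (σ : Fin 4 → Fin 11) (n : ℕ) (hn : n < 8) (x : Fin 4)
    (k : ℕ) (s : Fin 11) (hs : s ≠ 0) :
    262144 * UU D i (Function.update σ x s) (n + k) ≤
      D.c0 (keyf σ - 5 ^ (σ x : ℕ)) n i +
        ∑ j, D.c (keyf σ - 5 ^ (σ x : ℕ)) n i j * hf j k s := by
  obtain ⟨a₁, a₂, a₃, hk, hu⟩ := key_ctx σ x
  rw [hk]
  refine ext s _ _ (fun k => 262144 * UU D i (Function.update σ x s) (n + k)) ?_ ?_ ?_ k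
  · intro k hk10
    show 262144 * UU D i (Function.update σ x s) (n + k) ≤ _
    rw [UU_low D i _ (n + k) (by omega), hu s]
    exact D.ctx a₁ a₂ a₃ s hs k hk10 n hn i
  · show 262144 * UU D i (Function.update σ x s) (n + 10) + _ ≤
      262144 * UU D i (Function.update σ x s) (n + 9) + _
    rw [UU_low D i _ (n + 10) (by omega), UU_low D i _ (n + 9) (by omega), hu s]
    exact D.ray a₁ a₂ a₃ s hs n hn i
  · intro m
    show 262144 * UU D i (Function.update σ x s) (n + (9 + m)) +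
      T m * (262144 * UU D i (Function.update σ x s) (n + 9)) ≤
      262144 * UU D i (Function.update σ x s) (n + 9) +
      T m * (262144 * UU D i (Function.update σ x s) (n + 10))
    rw [UU_tail D i _ (n + (9 + m)) (by omega), UU_tail D i _ (n + 9) (by omega),
      UU_tail D i _ (n + 10) (by omega)]
    by_cases h0 : jf i = 0
    · simp only [h0, if_true]
      have e1 : n + (9 + m) - 8 = (n + 1) + m := by omega
      have e2 : n + 9 - 8 = n + 1 := by omega
      have e3 : n + 10 - 8 = (n + 1) + 1 := by omega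
      rw [e1, e2, e3, pow_add, pow_add 2 (n + 1) 1]
      generalize 32 * (∏ y, pf (Function.update σ x s y)) = P
      generalize 2 ^ (n + 1) = W
      have h2 := Nat.mul_le_mul_left (262144 * (P * W)) (T_two m)
      calc 262144 * (P * (W * 2 ^ m)) + T m * (262144 * (P * W))
          = 262144 * (P * W) * 2 ^ m + T m * (262144 * (P * W)) := by ring
        _ ≤ 262144 * (P * W) * (1 + T m) + T m * (262144 * (P * W)) := by
            exact Nat.add_le_add_right h2 _
        _ = 262144 * (P * W) + T m * (262144 * (P * (W * 2 ^ 1))) := by ring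
    · simp only [h0, if_false]
      exact le_refl _

theorem low_step (D : FinDat) (i : Fin 22) (σ : Fin 4 → Fin 11) (n : ℕ) (hn : n < 8) :
    4 * (262144 * sc0 i + ∑ j, (262144 * sc i j) * UU D j σ n) +
      ∑ x : Fin 4, 4 * (D.c0 (keyf σ - 5 ^ (σ x : ℕ)) n i +
        ∑ j, D.c (keyf σ - 5 ^ (σ x : ℕ)) n i j * UU D j (chf (σ x)) (start (N := 9) (σ x))) ≤
      20 * (262144 * UU D i σ (n + 1)) := by
  rw [shift_val, ← Finset.mul_sum]
  have h := D.step σ i n hn
  have e1 : (fun j => UU D j σ n) = D.U (keyf σ) n := by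
    funext j; exact UU_le8 D j σ n (by omega)
  rw [e1, UU_le8 D i σ (n + 1) (by omega)]
  simp only [UU_start]
  omega

theorem high_one (D : FinDat) (i : Fin 22) (h0 : jf i ≠ 0) (σ : Fin 4 → Fin 11) (n : ℕ)
    (hn : 8 ≤ n) : UU D i σ n ≤ 1048576 := by
  have := UU_cap D i σ n hn
  simpa only [h0, if_false] using this

theorem high_step1 (D : FinDat) (i : Fin 22) (h0 : jf i ≠ 0) (σ : Fin 4 → Fin 11) (n : ℕ)
    (hn : 8 ≤ n) :
    4 * (1 * sc0 i + ∑ j, (1 * sc i j) * UU D j σ n) + ∑ _x : Fin 4, 4 * 1048576 ≤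
      20 * (1 * UU D i σ (n + 1)) := by
  rw [shift_val, UU_tail D i σ (n + 1) (by omega)]
  have h : shf (fun j => UU D j σ n) i ≤ 1048576 := by
    unfold shf
    simp only [h0, if_false]
    by_cases h1 : jf i = 1
    · simp [h1]
    · simp only [h1, if_false]
      have := (jf_pred i (by omega)).1
      exact high_one D (i - 1) (by omega) σ n hn
  simp only [h0, if_false, Finset.sum_const, Finset.card_univ, Fintype.card_fin, smul_eq_mul]
  omega

/-- weight of the other slots -/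
noncomputable def Q (σ : Fin 4 → Fin 11) (n : ℕ) (x : Fin 4) : ℕ :=
  32 * (∏ y ∈ Finset.univ.erase x, pf (σ y)) * 2 ^ (n - 8)

theorem Q_update (σ : Fin 4 → Fin 11) (n k : ℕ) (hn : 8 ≤ n) (x : Fin 4) (s : Fin 11) :
    32 * (∏ y, pf (Function.update σ x s y)) * 2 ^ (n + k - 8) = Q σ n x * (pf s * 2 ^ k) := by
  have e : n + k - 8 = (n - 8) + k := by omega
  unfold Q
  rw [e, pow_add, ← Finset.mul_prod_erase Finset.univ _ (Finset.mem_univ x),
    Function.update_self]
  have : ∏ y ∈ Finset.univ.erase x, pf (Function.update σ x s y) =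
      ∏ y ∈ Finset.univ.erase x, pf (σ y) := by
    refine Finset.prod_congr rfl fun y hy => ?_
    rw [Function.update_of_ne (Finset.ne_of_mem_erase hy)]
  rw [this]; ring

theorem Q_self (σ : Fin 4 → Fin 11) (n : ℕ) (x : Fin 4) :
    Q σ n x * pf (σ x) = 32 * (∏ y, pf (σ y)) * 2 ^ (n - 8) := by
  unfold Q
  rw [← Finset.mul_prod_erase Finset.univ (fun y => pf (σ y)) (Finset.mem_univ x)]
  ring

theorem g_ext (D : FinDat) (t s : Fin 11) (hs : s ≠ 0) (k : ℕ) :
    262144 * 65536 * pf s * 2 ^ k ≤ D.g0 t + ∑ j, D.g t j * hf j k s := by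
  have h1 := D.gctx t s hs
  have h2 := D.gray t s hs
  generalize 262144 * 65536 * pf s = P at h1 h2 ⊢
  refine ext s _ _ (fun k => P * 2 ^ k) h1 ?_ ?_ k
  · show P * 2 ^ 10 + _ ≤ P * 2 ^ 9 + _
    have e : P * 2 ^ 10 = P * 2 ^ 9 + P * 2 ^ 9 := by ring
    rw [e, Nat.add_assoc]
    exact Nat.add_le_add_left h2 _
  · intro m
    show P * 2 ^ (9 + m) + T m * (P * 2 ^ 9) ≤ P * 2 ^ 9 + T m * (P * 2 ^ 10)
    have h2 := Nat.mul_le_mul_left (P * 2 ^ 9) (T_two m)
    calc P * 2 ^ (9 + m) + T m * (P * 2 ^ 9) = P * 2 ^ 9 * 2 ^ m + T m * (P * 2 ^ 9) := by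
          rw [pow_add]; ring
      _ ≤ P * 2 ^ 9 * (1 + T m) + T m * (P * 2 ^ 9) := Nat.add_le_add_right h2 _
      _ = P * 2 ^ 9 + T m * (P * 2 ^ 10) := by ring

theorem b_ext (D : FinDat) (s : Fin 11) (hs : s ≠ 0) (k : ℕ) :
    262144 * 1048576 * k ≤ D.b0 + ∑ j, D.b j * hf j k s := by
  refine ext s _ _ (fun k => 262144 * 1048576 * k) ?_ ?_ ?_ k
  · intro k hk
    exact D.bctx s hs k hk
  · have := D.bray s hs
    show 262144 * 1048576 * 10 + _ ≤ 262144 * 1048576 * 9 + _
    omega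
  · intro m
    show 262144 * 1048576 * (9 + m) + T m * (262144 * 1048576 * 9) ≤
      262144 * 1048576 * 9 + T m * (262144 * 1048576 * 10)
    have := T_ge m
    omega

theorem high_ctx0 (D : FinDat) (i : Fin 22) (h0 : jf i = 0) (σ : Fin 4 → Fin 11) (n : ℕ)
    (hn : 8 ≤ n) (x : Fin 4) (k : ℕ) (s : Fin 11) (hs : s ≠ 0) :
    262144 * 65536 * UU D i (Function.update σ x s) (n + k) ≤
      Q σ n x * D.g0 (σ x) + ∑ j, (Q σ n x * D.g (σ x) j) * hf j k s := by
  have h1 := UU_cap D i (Function.update σ x s) (n + k) (by omega)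
  simp only [h0, if_true] at h1
  rw [Q_update σ n k hn x s] at h1
  have h2 := g_ext D (σ x) s hs k
  have h3 : Q σ n x * D.g0 (σ x) + ∑ j, (Q σ n x * D.g (σ x) j) * hf j k s =
      Q σ n x * (D.g0 (σ x) + ∑ j, D.g (σ x) j * hf j k s) := by
    rw [Nat.mul_add, Finset.mul_sum]
    simp only [Nat.mul_assoc]
  rw [h3]
  refine le_trans (Nat.mul_le_mul_left _ h1) ?_
  have h4 := Nat.mul_le_mul_left (Q σ n x) h2
  refine le_trans (le_of_eq ?_) h4
  ring

theorem arith (m u w S : ℕ) (hm : m = 17179869184) (hu : 2097152 ≤ u) (hw : w ≤ u)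
    (hS : S ≤ 28337235505 * u) :
    4 * (m * (3 * w + 131072)) + 4 * (4 * S) ≤ 20 * (m * (u * 2)) := by
  subst hm
  omega

theorem high_step0 (D : FinDat) (i : Fin 22) (h0 : jf i = 0) (σ : Fin 4 → Fin 11) (n : ℕ)
    (hn : 8 ≤ n) :
    4 * (262144 * 65536 * sc0 i + ∑ j, (262144 * 65536 * sc i j) * UU D j σ n) +
      ∑ x : Fin 4, 4 * (Q σ n x * D.g0 (σ x) +
        ∑ j, (Q σ n x * D.g (σ x) j) * UU D j (chf (σ x)) (start (N := 9) (σ x))) ≤
      20 * (262144 * 65536 * UU D i σ (n + 1)) := by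
  rw [shift_val, UU_tail D i σ (n + 1) (by omega)]
  simp only [h0, if_true, UU_start]
  have hs : shf (fun j => UU D j σ n) i = 3 * UU D i σ n + 131072 := by
    unfold shf; simp only [h0, if_true]
  rw [hs]
  have hw := UU_cap D i σ n hn
  simp only [h0, if_true] at hw
  have e : n + 1 - 8 = (n - 8) + 1 := by omega
  have hg : 32 * (∏ y, pf (σ y)) * 2 ^ (n + 1 - 8) = 32 * (∏ y, pf (σ y)) * 2 ^ (n - 8) * 2 := by
    rw [e, pow_succ, ← Nat.mul_assoc]
  rw [hg]
  have hu : 2097152 ≤ 32 * (∏ y, pf (σ y)) * 2 ^ (n - 8) := by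
    have hp : 16 ^ 4 ≤ ∏ y, pf (σ y) := by
      rw [Fin.prod_univ_four]
      calc 16 ^ 4 = 16 * 16 * 16 * 16 := by norm_num
        _ ≤ _ := Nat.mul_le_mul (Nat.mul_le_mul (Nat.mul_le_mul (pf_ge _) (pf_ge _)) (pf_ge _))
            (pf_ge _)
    have h2 : 1 ≤ 2 ^ (n - 8) := Nat.one_le_two_pow
    calc 2097152 = 32 * 16 ^ 4 * 1 := by norm_num
      _ ≤ _ := Nat.mul_le_mul (Nat.mul_le_mul_left _ hp) h2
  have hS : ∀ x : Fin 4, 4 * (Q σ n x * D.g0 (σ x) +
        ∑ j, (Q σ n x * D.g (σ x) j) * D.U (keyf (chf (σ x))) (st (σ x)) j) ≤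
        4 * (28337235505 * (32 * (∏ y, pf (σ y)) * 2 ^ (n - 8))) := by
    intro x
    refine Nat.mul_le_mul_left 4 ?_
    have h3 : Q σ n x * D.g0 (σ x) + ∑ j, (Q σ n x * D.g (σ x) j) *
        D.U (keyf (chf (σ x))) (st (σ x)) j =
        Q σ n x * (D.g0 (σ x) + ∑ j, D.g (σ x) j * D.U (keyf (chf (σ x))) (st (σ x)) j) := by
      rw [Nat.mul_add, Finset.mul_sum]
      simp only [Nat.mul_assoc]
    rw [h3]
    refine le_trans (Nat.mul_le_mul_left _ (D.gval (σ x))) (le_of_eq ?_)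
    rw [← Q_self σ n x]
    ring
  have hsum : (∑ x : Fin 4, 4 * (Q σ n x * D.g0 (σ x) +
        ∑ j, (Q σ n x * D.g (σ x) j) * D.U (keyf (chf (σ x))) (st (σ x)) j)) ≤
        4 * (4 * (28337235505 * (32 * (∏ y, pf (σ y)) * 2 ^ (n - 8)))) := by
    refine le_trans (Finset.sum_le_sum fun x _ => hS x) ?_
    rw [Finset.sum_const, Finset.card_univ, Fintype.card_fin, smul_eq_mul]
  generalize 32 * (∏ y, pf (σ y)) * 2 ^ (n - 8) = u at hw hu hsum ⊢
  refine le_trans (Nat.add_le_add_left hsum _) ?_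
  have ha := arith (262144 * 65536) u (UU D i σ n) (28337235505 * u) (by norm_num) hu hw le_rfl
  convert ha using 1

/-! ### The certificate -/

/-- the certificate -/
noncomputable def certOfFin (D : FinDat) : Cert where
  N := 9
  r := 22
  ch := chf
  ch0 := ch0
  ch1 := ch1
  le a b := leB (a : ℕ) (b : ℕ) = true
  le_cases a b h := (le_cases a b h).imp id fun h' => ⟨h'.1, Equiv.refl _, h'.2⟩
  cs σ := D.cs (keyf σ)
  cs_le σ := D.cs_le σ
  cs_ne σ := D.cs_ne σ
  h := hf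
  U := UU D
  U_perm i σ n π := UU_perm D i σ n π
  zero i σ := by
    show hf i 0 (D.cs (keyf σ)) ≤ UU D i σ 0
    rw [UU_le8 D i σ 0 (by norm_num)]
    exact D.zero σ i
  fresh i := by
    show UU D i (chf 0) 1 ≤ UU D i (chf 0) 2
    rw [UU_le8 D i _ 1 (by norm_num), UU_le8 D i _ 2 (by norm_num)]
    exact D.fresh i
  truncF i := by
    show hf i 0 1 ≤ UU D i (chf 0) 2
    rw [UU_le8 D i _ 2 (by norm_num)]
    exact D.truncF i
  trunc i s hs := by
    show hf i 0 s ≤ UU D i (chf s) 1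
    rw [UU_le8 D i _ 1 (by norm_num)]
    exact D.trunc i s hs
  step i σ n := by
    by_cases hn : n < 8
    · exact ⟨262144, 262144 * sc0 i, fun j => 262144 * sc i j,
        fun x => D.c0 (keyf σ - 5 ^ (σ x : ℕ)) n i, fun x j => D.c (keyf σ - 5 ^ (σ x : ℕ)) n i j,
        by norm_num, fun k s _ => shift_ineq 262144 i k s,
        fun x k s hs => low_ctx D i σ n hn x k s hs, low_step D i σ n hn⟩
    · by_cases h0 : jf i = 0
      · exact ⟨262144 * 65536, 262144 * 65536 * sc0 i, fun j => 262144 * 65536 * sc i j,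
          fun x => Q σ n x * D.g0 (σ x), fun x j => Q σ n x * D.g (σ x) j,
          by norm_num, fun k s _ => shift_ineq (262144 * 65536) i k s,
          fun x k s hs => high_ctx0 D i h0 σ n (by omega) x k s hs,
          high_step0 D i h0 σ n (by omega)⟩
      · refine ⟨1, 1 * sc0 i, fun j => 1 * sc i j, fun _ => 1048576, fun _ _ => 0,
          by norm_num, fun k s _ => shift_ineq 1 i k s, fun x k s hs => ?_, ?_⟩
        · have := high_one D i h0 (Function.update σ x s) (n + k) (by omega)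
          simpa using this
        · have := high_step1 D i h0 σ n (by omega)
          simpa using this
  root := by
    refine ⟨262144 * 1048576, D.b0, D.b, fun k s hs => b_ext D s hs k, fun s => ?_⟩
    have := D.bval s
    simp only [← UU_start] at this
    exact this

end Pool.Agent.H27.Frog
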